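import Mathlib

/-! Depth versus variable space in resolution: `D ≤ O(V³ log² n)`. -/

set_option autoImplicit false

namespace Pool.Agent.H561R2.VS

open Finset

variable {n : ℕ}

abbrev Cl (n : ℕ) := Finset (Fin n × Bool)

/-- resolvent relation -/
def IsRes (C₁ C₂ C : Cl n) : Prop :=
  ∃ x : Fin n, (x, true) ∈ C₁ ∧ (x, false) ∈ C₂ ∧
    C = C₁.erase (x, true) ∪ C₂.erase (x, false)

/-- level closure -/
def lev (F : Finset (Cl n)) : ℕ → Set (Cl n)
  | 0 => (↑F : Set (Cl n))
  | k + 1 => {C | C ∈ lev F k ∨ ∃ C₁ ∈ lev F k, ∃ C₂ ∈ lev F k, ∃ x : Fin n,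
      (x, true) ∈ C₁ ∧ (x, false) ∈ C₂ ∧ C = C₁.erase (x, true) ∪ C₂.erase (x, false)}

/-- a subclause of `C` is derivable in depth `d` -/
def Der (F : Finset (Cl n)) (d : ℕ) (C : Cl n) : Prop := ∃ C' ∈ lev F d, C' ⊆ C

lemma lev_mono_succ (F : Finset (Cl n)) (k : ℕ) : lev F k ⊆ lev F (k + 1) :=
  fun _ h => Or.inl h

lemma lev_mono (F : Finset (Cl n)) {k l : ℕ} (h : k ≤ l) : lev F k ⊆ lev F l := by
  induction l, h using Nat.le_induction with
  | base => exact subset_rfl
  | succ m _ ih => exact ih.trans (lev_mono_succ F m)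

lemma Der.mono {F : Finset (Cl n)} {d e : ℕ} {C : Cl n} (h : Der F d C) (hde : d ≤ e) :
    Der F e C := by
  obtain ⟨C', h1, h2⟩ := h
  exact ⟨C', lev_mono F hde h1, h2⟩

lemma Der.res {F : Finset (Cl n)} {d : ℕ} {C : Cl n} {x : Fin n}
    (h1 : Der F d (insert (x, true) C)) (h2 : Der F d (insert (x, false) C)) :
    Der F (d + 1) C := by
  obtain ⟨C1, hC1, hs1⟩ := h1
  obtain ⟨C2, hC2, hs2⟩ := h2
  by_cases hx1 : (x, true) ∈ C1
  · by_cases hx2 : (x, false) ∈ C2
    · refine ⟨C1.erase (x, true) ∪ C2.erase (x, false), Or.inr ⟨C1, hC1, C2, hC2, x, hx1, hx2, rfl⟩, ?_⟩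
      intro l hl
      rcases Finset.mem_union.1 hl with hl | hl
      · obtain ⟨hne, hl⟩ := Finset.mem_erase.1 hl
        rcases Finset.mem_insert.1 (hs1 hl) with h | h
        · exact absurd h hne
        · exact h
      · obtain ⟨hne, hl⟩ := Finset.mem_erase.1 hl
        rcases Finset.mem_insert.1 (hs2 hl) with h | h
        · exact absurd h hne
        · exact h
    · refine ⟨C2, lev_mono_succ F d hC2, ?_⟩
      intro l hl
      rcases Finset.mem_insert.1 (hs2 hl) with h | h
      · exact absurd (h ▸ hl) hx2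
      · exact h
  · refine ⟨C1, lev_mono_succ F d hC1, ?_⟩
    intro l hl
    rcases Finset.mem_insert.1 (hs1 hl) with h | h
    · exact absurd (h ▸ hl) hx1
    · exact h

/-- the maximal clause over the variables `Q` falsified by `α` -/
def fcl (Q : Finset (Fin n)) (α : Fin n → Bool) : Cl n := Q.image (fun i => (i, !α i))

lemma fcl_congr {Q : Finset (Fin n)} {α β : Fin n → Bool} (h : ∀ i ∈ Q, β i = α i) :
    fcl Q β = fcl Q α := by
  unfold fcl
  apply Finset.image_congr
  intro i hi
  simp [h i hi]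

lemma fcl_insert {Q : Finset (Fin n)} {α : Fin n → Bool} {x : Fin n} (hx : x ∉ Q) (b : Bool) :
    fcl (insert x Q) (Function.update α x b) = insert (x, !b) (fcl Q α) := by
  have : fcl Q (Function.update α x b) = fcl Q α := by
    apply fcl_congr
    intro i hi
    have : i ≠ x := fun h => hx (h ▸ hi)
    simp [this]
  rw [← this]
  unfold fcl
  rw [Finset.image_insert]
  simp

lemma der_query {F : Finset (Cl n)} {d : ℕ} {Q : Finset (Fin n)} {α : Fin n → Bool} {x : Fin n}
    (hx : x ∉ Q) (h : ∀ b, Der F d (fcl (insert x Q) (Function.update α x b))) :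
    Der F (d + 1) (fcl Q α) := by
  apply Der.res (x := x)
  · have := h false
    rwa [fcl_insert hx] at this
  · have := h true
    rwa [fcl_insert hx] at this

lemma der_queries {F : Finset (Cl n)} {d : ℕ} (U : Finset (Fin n)) :
    ∀ (Q : Finset (Fin n)) (α : Fin n → Bool),
      (∀ β : Fin n → Bool, (∀ i ∈ Q, β i = α i) → Der F d (fcl (Q ∪ U) β)) →
      Der F (d + U.card) (fcl Q α) := by
  induction U using Finset.induction_on with
  | empty =>
    intro Q α h
    have := h α (fun _ _ => rfl)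
    simpa using this
  | insert x U hxU ih =>
    intro Q α h
    by_cases hx : x ∈ Q
    · have h2 : Q ∪ insert x U = Q ∪ U := by
        ext i
        simp only [Finset.mem_union, Finset.mem_insert]
        constructor
        · rintro (h | rfl | h)
          · exact Or.inl h
          · exact Or.inl hx
          · exact Or.inr h
        · rintro (h | h)
          · exact Or.inl h
          · exact Or.inr (Or.inr h)
      rw [h2] at h
      exact (ih Q α h).mono (by rw [Finset.card_insert_of_notMem hxU]; omega)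
    · have : d + (insert x U).card = (d + U.card) + 1 := by
        rw [Finset.card_insert_of_notMem hxU]; omega
      rw [this]
      apply der_query hx
      intro b
      apply ih
      intro β hβ
      have h3 : insert x Q ∪ U = Q ∪ insert x U := by
        ext i
        simp only [Finset.mem_union, Finset.mem_insert]
        tauto
      rw [h3]
      apply h
      intro i hi
      have : i ≠ x := fun h => hx (h ▸ hi)
      have h4 := hβ i (Finset.mem_insert_of_mem hi)
      simpa [this] using h4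

/-- `α` satisfies the clause `C` -/
def Sat (α : Fin n → Bool) (C : Cl n) : Prop := ∃ l ∈ C, α l.1 = l.2

def Alive (α : Fin n → Bool) (M : Finset (Cl n)) : Prop := ∀ C ∈ M, Sat α C

def vars (M : Finset (Cl n)) : Finset (Fin n) := (M.biUnion id).image Prod.fst

lemma mem_vars {M : Finset (Cl n)} {C : Cl n} (hC : C ∈ M) {l : Fin n × Bool} (hl : l ∈ C) :
    l.1 ∈ vars M := by
  unfold vars
  apply Finset.mem_image_of_mem
  exact Finset.mem_biUnion.2 ⟨C, hC, hl⟩

lemma alive_congr {α β : Fin n → Bool} {M : Finset (Cl n)} (h : ∀ i ∈ vars M, β i = α i) :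
    Alive β M ↔ Alive α M := by
  unfold Alive Sat
  constructor
  · intro H C hC
    obtain ⟨l, hl, h2⟩ := H C hC
    exact ⟨l, hl, by rw [← h _ (mem_vars hC hl)]; exact h2⟩
  · intro H C hC
    obtain ⟨l, hl, h2⟩ := H C hC
    exact ⟨l, hl, by rw [h _ (mem_vars hC hl)]; exact h2⟩

/-- a step of the configuration refutation -/
def Step (F : Finset (Cl n)) (M M' : Finset (Cl n)) : Prop :=
  (∃ C ∈ F, M' = insert C M) ∨ (∃ C ∈ M, M' = M.erase C) ∨
  (∃ C₁ ∈ M, ∃ C₂ ∈ M, ∃ x : Fin n, (x, true) ∈ C₁ ∧ (x, false) ∈ C₂ ∧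
    M' = insert (C₁.erase (x, true) ∪ C₂.erase (x, false)) M)

lemma step_dead {F : Finset (Cl n)} {M M' : Finset (Cl n)} (h : Step F M M')
    {α : Fin n → Bool} (h1 : Alive α M) (h2 : ¬ Alive α M') :
    ∃ C ∈ F, C ∈ M' ∧ ¬ Sat α C := by
  rcases h with ⟨C, hC, rfl⟩ | ⟨C, hC, rfl⟩ | ⟨C₁, h₁, C₂, h₂, x, hx1, hx2, rfl⟩
  · refine ⟨C, hC, Finset.mem_insert_self _ _, ?_⟩
    intro hs
    apply h2
    intro D hD
    rcases Finset.mem_insert.1 hD with rfl | hD
    · exact hs
    · exact h1 D hD
  · exact absurd (fun D hD => h1 D (Finset.mem_of_mem_erase hD)) h2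
  · exfalso
    apply h2
    intro D hD
    rcases Finset.mem_insert.1 hD with rfl | hD
    · by_cases hx : α x = true
      · obtain ⟨l, hl, hl2⟩ := h1 C₂ h₂
        refine ⟨l, Finset.mem_union_right _ (Finset.mem_erase.2 ⟨?_, hl⟩), hl2⟩
        rintro rfl
        simp only at hl2
        rw [hx] at hl2
        exact absurd hl2 (by simp)
      · obtain ⟨l, hl, hl2⟩ := h1 C₁ h₁
        refine ⟨l, Finset.mem_union_left _ (Finset.mem_erase.2 ⟨?_, hl⟩), hl2⟩
        rintro rfl
        simp only at hl2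
        exact hx hl2
    · exact h1 D hD

lemma der_leaf {F : Finset (Cl n)} {Q : Finset (Fin n)} {α : Fin n → Bool} {C : Cl n}
    (hC : C ∈ F) (hs : ¬ Sat α C) (hQ : ∀ l ∈ C, l.1 ∈ Q) : Der F 0 (fcl Q α) := by
  refine ⟨C, hC, ?_⟩
  intro l hl
  unfold fcl
  rw [Finset.mem_image]
  refine ⟨l.1, hQ l hl, ?_⟩
  have : α l.1 ≠ l.2 := fun h => hs ⟨l, hl, h⟩
  ext
  · rfl
  · have h3 : (!α l.1) = l.2 := by
      cases h1 : α l.1 <;> cases h2 : l.2 <;> simp_all
    simp [h3]

/-- greedy hitting sets: a family `T` of fewer than `2^k` dense subsets of `A` has a hitting set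
of size at most `k`. -/
lemma exists_hitting {ι β : Type*} [DecidableEq ι] [DecidableEq β] (A : Finset β)
    (W : ι → Finset β) (k : ℕ) : ∀ (T : Finset ι), T.card < 2 ^ k →
    (∀ τ ∈ T, W τ ⊆ A ∧ (W τ).Nonempty ∧ A.card ≤ 2 * (W τ).card) →
    ∃ H ⊆ A, H.card ≤ k ∧ ∀ τ ∈ T, ∃ h ∈ H, h ∈ W τ := by
  induction k with
  | zero =>
    intro T hT _
    have : T = ∅ := by
      rw [← Finset.card_eq_zero]; simpa using hT
    subst this
    exact ⟨∅, by simp, by simp, by simp⟩
  | succ k ih =>
    intro T hT hW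
    rcases T.eq_empty_or_nonempty with rfl | hne
    · exact ⟨∅, by simp, by simp, by simp⟩
    · -- some h in A hits at least half of T
      have hA : 0 < A.card := by
        obtain ⟨τ, hτ⟩ := hne
        obtain ⟨h1, ⟨x, hx⟩, _⟩ := hW τ hτ
        exact Finset.card_pos.2 ⟨x, h1 hx⟩
      have key : ∃ h ∈ A, T.card ≤ 2 * (T.filter (fun τ => h ∈ W τ)).card := by
        by_contra hcon
        push Not at hcon
        have h1 : ∑ h ∈ A, 2 * (T.filter (fun τ => h ∈ W τ)).card < ∑ h ∈ A, T.card := by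
          apply Finset.sum_lt_sum_of_nonempty (Finset.card_pos.1 hA)
          intro h hh
          exact hcon h hh
        have h2 : ∑ h ∈ A, 2 * (T.filter (fun τ => h ∈ W τ)).card
            = ∑ τ ∈ T, 2 * (W τ).card := by
          rw [← Finset.mul_sum, ← Finset.mul_sum]
          congr 1
          simp_rw [Finset.card_filter]
          rw [Finset.sum_comm]
          apply Finset.sum_congr rfl
          intro τ hτ
          rw [← Finset.card_filter]
          congr 1
          ext x
          simp only [Finset.mem_filter]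
          constructor
          · rintro ⟨_, h⟩; exact h
          · intro h; exact ⟨(hW τ hτ).1 h, h⟩
        have h3 : ∑ τ ∈ T, A.card ≤ ∑ τ ∈ T, 2 * (W τ).card :=
          Finset.sum_le_sum (fun τ hτ => (hW τ hτ).2.2)
        rw [h2] at h1
        simp only [Finset.sum_const, smul_eq_mul] at h1 h3
        rw [mul_comm] at h3
        exact absurd (lt_of_le_of_lt h3 h1) (lt_irrefl _)
      obtain ⟨h, hhA, hh⟩ := key
      have hsplit : (T.filter (fun τ => h ∈ W τ)).card + (T.filter (fun τ => ¬ h ∈ W τ)).card = T.card :=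
        Finset.card_filter_add_card_filter_not _
      have hlt : (T.filter (fun τ => ¬ h ∈ W τ)).card < 2 ^ k := by
        rw [pow_succ] at hT
        omega
      obtain ⟨H, hHA, hHc, hH⟩ := ih (T.filter (fun τ => ¬ h ∈ W τ)) hlt
        (fun τ hτ => hW τ (Finset.mem_filter.1 hτ).1)
      refine ⟨insert h H, ?_, ?_, ?_⟩
      · intro x hx
        rcases Finset.mem_insert.1 hx with rfl | hx
        · exact hhA
        · exact hHA hx
      · exact (Finset.card_insert_le _ _).trans (by omega)
      · intro τ hτ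
        by_cases hm : h ∈ W τ
        · exact ⟨h, Finset.mem_insert_self _ _, hm⟩
        · obtain ⟨h', h1, h2⟩ := hH τ (Finset.mem_filter.2 ⟨hτ, hm⟩)
          exact ⟨h', Finset.mem_insert_of_mem h1, h2⟩

end Pool.Agent.H561R2.VS
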