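import Pool.Agent.H561R2.VSpace

set_option autoImplicit false

namespace Pool.Agent.H561R2.VS

open Finset

variable {n : ℕ}

/-- bags visited strictly between two times -/
def bags (M : ℕ → Finset (Cl n)) (r τ : ℕ) : Finset (Finset (Fin n)) :=
  (Finset.Ioo r τ).image (fun s => vars (M s))

lemma bags_mono (M : ℕ → Finset (Cl n)) {r r' τ τ' : ℕ} (h : r ≤ r') (h' : τ' ≤ τ) :
    bags M r' τ' ⊆ bags M r τ := by
  unfold bags
  exact Finset.image_subset_image (Finset.Ioo_subset_Ioo h h')

open Classical in
/-- first dead visit of the bag `h` by the assignment `α` strictly between `p` and `q`; `q` if none. -/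
noncomputable def death (M : ℕ → Finset (Cl n)) (p q : ℕ) (h : Finset (Fin n))
    (α : Fin n → Bool) : ℕ :=
  if hex : ∃ s, p < s ∧ s < q ∧ vars (M s) = h ∧ ¬ Alive α (M s) then Nat.find hex else q

lemma death_spec (M : ℕ → Finset (Cl n)) (p q : ℕ) (h : Finset (Fin n)) (α : Fin n → Bool) :
    death M p q h α = q ∨
      (p < death M p q h α ∧ death M p q h α < q ∧ vars (M (death M p q h α)) = h ∧
        ¬ Alive α (M (death M p q h α))) := by
  classical
  unfold death
  split_ifs with hex
  · right
    exact Nat.find_spec hex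
  · left; rfl

lemma death_le (M : ℕ → Finset (Cl n)) (p q : ℕ) (h : Finset (Fin n)) (α : Fin n → Bool) :
    death M p q h α ≤ q := by
  rcases death_spec M p q h α with h1 | h1
  · exact h1.le
  · exact h1.2.1.le

lemma death_min (M : ℕ → Finset (Cl n)) {p q : ℕ} {h : Finset (Fin n)} {α : Fin n → Bool} {s : ℕ}
    (h1 : p < s) (h2 : s < q) (h3 : vars (M s) = h) (h4 : ¬ Alive α (M s)) :
    death M p q h α ≤ s := by
  classical
  unfold death
  have hex : ∃ s, p < s ∧ s < q ∧ vars (M s) = h ∧ ¬ Alive α (M s) := ⟨s, h1, h2, h3, h4⟩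
  rw [dif_pos hex]
  exact Nat.find_min' hex ⟨h1, h2, h3, h4⟩

lemma death_congr (M : ℕ → Finset (Cl n)) (p q : ℕ) (h : Finset (Fin n)) {α β : Fin n → Bool}
    (hab : ∀ i ∈ h, β i = α i) : death M p q h β = death M p q h α := by
  classical
  have key : (fun s => p < s ∧ s < q ∧ vars (M s) = h ∧ ¬ Alive β (M s)) =
      (fun s => p < s ∧ s < q ∧ vars (M s) = h ∧ ¬ Alive α (M s)) := by
    funext s
    apply propext
    constructor
    · rintro ⟨a, b, c, d⟩
      refine ⟨a, b, c, fun hh => d ?_⟩
      rw [alive_congr (α := α) (β := β) (fun i hi => hab i (c ▸ hi))]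
      exact hh
    · rintro ⟨a, b, c, d⟩
      refine ⟨a, b, c, fun hh => d ?_⟩
      rw [← alive_congr (α := α) (β := β) (fun i hi => hab i (c ▸ hi))]
      exact hh
  unfold death
  simp only [key]

/-- indicator assignment -/
def ind (s : Finset (Fin n)) : Fin n → Bool := fun i => decide (i ∈ s)

theorem main_ind (F : Finset (Cl n)) (M : ℕ → Finset (Cl n)) (t V K : ℕ)
    (hstep : ∀ i < t, Step F (M i) (M (i + 1)))
    (hV : ∀ i ≤ t, (vars (M i)).card ≤ V) :
    ∀ (m : ℕ), m + V + 1 ≤ K → ∀ (Q : Finset (Fin n)) (α : Fin n → Bool) (p q : ℕ), p < q → q ≤ t →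
      vars (M p) ⊆ Q → vars (M q) ⊆ Q → Alive α (M p) → ¬ Alive α (M q) →
      (bags M p q).card < 2 ^ m → Der F (m * (K * V)) (fcl Q α) := by
  classical
  intro m
  induction m with
  | zero =>
    intro _ Q α p q hpq hqt hQp hQq hp hq hc
    have hemp : bags M p q = ∅ := by
      rw [← Finset.card_eq_zero]; simpa using hc
    have hq1 : q = p + 1 := by
      by_contra hne
      have : vars (M (p + 1)) ∈ bags M p q := by
        unfold bags
        apply Finset.mem_image_of_mem
        rw [Finset.mem_Ioo]
        omega
      rw [hemp] at this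
      simp at this
    subst hq1
    obtain ⟨C, hCF, hCM, hs⟩ := step_dead (hstep p (by omega)) hp hq
    have := der_leaf (Q := Q) hCF hs (fun l hl => hQq (mem_vars hCM hl))
    exact this.mono (by omega)
  | succ m ih =>
    intro hK Q α p q hpq hqt hQp hQq hp hq hc
    set A := bags M p q with hA
    rcases Finset.eq_empty_or_nonempty A with hemp | hne
    · have hq1 : q = p + 1 := by
        by_contra hne
        have : vars (M (p + 1)) ∈ bags M p q := by
          unfold bags
          apply Finset.mem_image_of_mem
          rw [Finset.mem_Ioo]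
          omega
        rw [← hA, hemp] at this
        simp at this
      subst hq1
      obtain ⟨C, hCF, hCM, hs⟩ := step_dead (hstep p (by omega)) hp hq
      have := der_leaf (Q := Q) hCF hs (fun l hl => hQq (mem_vars hCM hl))
      exact this.mono (by omega)
    · have hApos : 0 < A.card := Finset.card_pos.2 hne
      have hAV : ∀ h ∈ A, h.card ≤ V := by
        intro h hh
        rw [hA] at hh
        unfold bags at hh
        obtain ⟨s, hs, rfl⟩ := Finset.mem_image.1 hh
        rw [Finset.mem_Ioo] at hs
        exact hV s (by omega)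
      -- the family of death times
      set T : Finset ℕ := insert q (A.biUnion (fun h => h.powerset.image
        (fun s => death M p q h (ind s)))) with hT
      have hTcard : T.card < 2 ^ K := by
        have h1 : (A.biUnion (fun h => h.powerset.image (fun s => death M p q h (ind s)))).card
            ≤ A.card * 2 ^ V := by
          apply Finset.card_biUnion_le_card_mul
          intro h hh
          refine Finset.card_image_le.trans ?_
          rw [Finset.card_powerset]
          exact Nat.pow_le_pow_right (by norm_num) (hAV h hh)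
        have h2 : T.card ≤ A.card * 2 ^ V + 1 := (Finset.card_insert_le _ _).trans (by omega)
        have h3 : A.card * 2 ^ V + 1 < 2 ^ (m + 1 + V + 1) := by
          have h4 : A.card * 2 ^ V < 2 ^ (m + 1) * 2 ^ V :=
            Nat.mul_lt_mul_of_pos_right hc (by positivity)
          rw [← pow_add] at h4
          have h5 : 2 ^ (m + 1 + V + 1) = 2 * 2 ^ (m + 1 + V) := by ring
          rw [h5]
          have : 1 ≤ 2 ^ (m + 1 + V) := Nat.one_le_two_pow
          omega
        exact lt_of_le_of_lt h2 (lt_of_lt_of_le h3 (Nat.pow_le_pow_right (by norm_num) hK))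
      have hTq : ∀ τ ∈ T, τ ≤ q := by
        intro τ hτ
        rcases Finset.mem_insert.1 hτ with rfl | hτ
        · exact le_rfl
        · obtain ⟨h, _, hh⟩ := Finset.mem_biUnion.1 hτ
          obtain ⟨s, _, rfl⟩ := Finset.mem_image.1 hh
          exact death_le _ _ _ _ _
      have hTp : ∀ τ ∈ T, p < τ := by
        intro τ hτ
        rcases Finset.mem_insert.1 hτ with rfl | hτ
        · exact hpq
        · obtain ⟨h, _, hh⟩ := Finset.mem_biUnion.1 hτ
          obtain ⟨s, _, rfl⟩ := Finset.mem_image.1 hh
          rcases death_spec M p q h (ind s) with h1 | h1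
          · rw [h1]; exact hpq
          · exact h1.1
      set P : ℕ → ℕ → Prop := fun τ r => A.card ≤ 2 * (bags M r τ).card with hP
      set r : ℕ → ℕ := fun τ => Nat.findGreatest (P τ) τ with hr
      set T' : Finset ℕ := T.filter (fun τ => P τ p) with hT'
      have hrP : ∀ τ ∈ T', p ≤ r τ ∧ P τ (r τ) ∧ r τ + 1 ≤ τ ∧ ¬ P τ (r τ + 1) := by
        intro τ hτ
        obtain ⟨h1, h2⟩ := Finset.mem_filter.1 hτ
        have hpt := hTp τ h1
        have ha : p ≤ r τ := Nat.le_findGreatest hpt.le h2
        have hb : P τ (r τ) := Nat.findGreatest_spec (P := P τ) hpt.le h2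
        have hle : r τ ≤ τ := Nat.findGreatest_le τ
        have hc' : r τ ≠ τ := by
          intro he
          rw [he] at hb
          simp only [hP, bags, Finset.Ioo_self, Finset.image_empty, Finset.card_empty] at hb
          omega
        have hd : r τ + 1 ≤ τ := by omega
        refine ⟨ha, hb, hd, ?_⟩
        exact Nat.findGreatest_is_greatest (P := P τ) (n := τ) (Nat.lt_succ_self _) hd
      obtain ⟨H, hHA, hHK, hH⟩ := exists_hitting A (fun τ => bags M (r τ) τ) K T'
        (lt_of_le_of_lt (Finset.card_le_card (Finset.filter_subset _ _)) hTcard) (by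
          intro τ hτ
          obtain ⟨h1, h2, h3, h4⟩ := hrP τ hτ
          have hτT := (Finset.mem_filter.1 hτ).1
          refine ⟨bags_mono M h1 (hTq τ hτT), ?_, h2⟩
          rw [← Finset.card_pos]
          simp only [hP] at h2
          omega)
      have hUc : (H.biUnion id).card ≤ K * V := by
        refine (Finset.card_biUnion_le_card_mul H id V (fun h hh => hAV h (hHA hh))).trans ?_
        exact Nat.mul_le_mul_right V hHK
      have hfinal : Der F (m * (K * V) + (H.biUnion id).card) (fcl Q α) := by
        apply der_queries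
        intro β hβ
        have hpβ : Alive β (M p) := (alive_congr (fun i hi => hβ i (hQp hi))).2 hp
        have hqβ : ¬ Alive β (M q) := fun h => hq ((alive_congr (fun i hi => hβ i (hQq hi))).1 h)
        set Z : Finset ℕ := insert q (H.image (fun h => death M p q h β)) with hZ
        have hZne : Z.Nonempty := Finset.insert_nonempty _ _
        set q' := Z.min' hZne with hq'
        have hq'Z : q' ∈ Z := Finset.min'_mem _ _
        have hq'q : q' ≤ q := Finset.min'_le _ _ (Finset.mem_insert_self _ _)
        have hq'h : ∀ h ∈ H, q' ≤ death M p q h β := fun h hh =>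
          Finset.min'_le _ _ (Finset.mem_insert_of_mem (Finset.mem_image_of_mem _ hh))
        have hsub : ∀ h ∈ H, h ⊆ Q ∪ H.biUnion id := by
          intro h hh i hi
          exact Finset.mem_union_right _ (Finset.mem_biUnion.2 ⟨h, hh, hi⟩)
        have hq'T : q' ∈ T := by
          rcases Finset.mem_insert.1 hq'Z with h1 | h1
          · rw [h1]; exact Finset.mem_insert_self _ _
          · obtain ⟨h, hh, h2⟩ := Finset.mem_image.1 h1
            rw [← h2]
            apply Finset.mem_insert_of_mem
            rw [Finset.mem_biUnion]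
            refine ⟨h, hHA hh, ?_⟩
            rw [Finset.mem_image]
            refine ⟨h.filter (fun i => β i = true), Finset.mem_powerset.2 (Finset.filter_subset _ _), ?_⟩
            apply death_congr
            intro i hi
            unfold ind
            cases hb : β i <;> simp [hi, hb]
        have hpq' : p < q' := hTp q' hq'T
        have hdead : ¬ Alive β (M q') ∧ vars (M q') ⊆ Q ∪ H.biUnion id := by
          rcases Finset.mem_insert.1 hq'Z with h1 | h1
          · rw [h1]; exact ⟨hqβ, hQq.trans Finset.subset_union_left⟩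
          · obtain ⟨h, hh, h2⟩ := Finset.mem_image.1 h1
            rcases death_spec M p q h β with h3 | h3
            · rw [← h2, h3]; exact ⟨hqβ, hQq.trans Finset.subset_union_left⟩
            · rw [← h2]
              refine ⟨h3.2.2.2, ?_⟩
              rw [h3.2.2.1]
              exact hsub h hh
        set Y : Finset ℕ := insert p ((Finset.Ioo p q').filter (fun s => vars (M s) ∈ H)) with hY
        have hYne : Y.Nonempty := Finset.insert_nonempty _ _
        set p' := Y.max' hYne with hp'
        have hp'Y : p' ∈ Y := Finset.max'_mem _ _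
        have hpp' : p ≤ p' := Finset.le_max' _ _ (Finset.mem_insert_self _ _)
        have hp'q' : p' < q' := by
          rcases Finset.mem_insert.1 hp'Y with h1 | h1
          · rw [h1]; exact hpq'
          · exact (Finset.mem_Ioo.1 (Finset.mem_filter.1 h1).1).2
        have halive : Alive β (M p') ∧ vars (M p') ⊆ Q ∪ H.biUnion id := by
          rcases Finset.mem_insert.1 hp'Y with h1 | h1
          · rw [h1]; exact ⟨hpβ, hQp.trans Finset.subset_union_left⟩
          · obtain ⟨h2, h3⟩ := Finset.mem_filter.1 h1
            rw [Finset.mem_Ioo] at h2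
            refine ⟨?_, hsub _ h3⟩
            by_contra hcon
            have h4 := death_min M (p := p) (q := q) (h := vars (M p')) (α := β) h2.1 (by omega) rfl hcon
            have h5 := hq'h _ h3
            omega
        have hcard : 2 * (bags M p' q').card < A.card := by
          by_cases hT'q : q' ∈ T'
          · obtain ⟨h1, h2, h3, h4⟩ := hrP q' hT'q
            obtain ⟨h, hh, hw⟩ := hH q' hT'q
            simp only [bags] at hw
            obtain ⟨s, hs, hs2⟩ := Finset.mem_image.1 hw
            rw [Finset.mem_Ioo] at hs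
            have hsY : s ∈ Y := by
              apply Finset.mem_insert_of_mem
              rw [Finset.mem_filter, Finset.mem_Ioo]
              refine ⟨⟨by omega, hs.2⟩, ?_⟩
              rw [hs2]; exact hh
            have hsp' : s ≤ p' := Finset.le_max' _ _ hsY
            have hsub2 : bags M p' q' ⊆ bags M (r q' + 1) q' := bags_mono M (by omega) le_rfl
            have := Finset.card_le_card hsub2
            simp only [hP, not_le] at h4
            omega
          · have h1 : ¬ P q' p := fun h => hT'q (Finset.mem_filter.2 ⟨hq'T, h⟩)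
            have := Finset.card_le_card (bags_mono M hpp' (le_refl q'))
            simp only [hP, not_le] at h1
            omega
        apply ih (by omega) (Q ∪ H.biUnion id) β p' q' hp'q' (by omega) halive.2 hdead.2
          halive.1 hdead.1
        rw [pow_succ] at hc
        omega
      refine hfinal.mono ?_
      have : (m + 1) * (K * V) = m * (K * V) + K * V := by ring
      omega

/-- the number of small sets -/
lemma card_small_sets (n V : ℕ) :
    ∃ S : Finset (Finset (Fin n)), S.card ≤ (n + 1) ^ V ∧ ∀ s : Finset (Fin n), s.card ≤ V → s ∈ S := by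
  classical
  induction V with
  | zero =>
    refine ⟨{∅}, by simp, ?_⟩
    intro s hs
    have : s = ∅ := by rw [← Finset.card_eq_zero]; omega
    simp [this]
  | succ V ih =>
    obtain ⟨S, hS, hm⟩ := ih
    refine ⟨(Finset.univ ×ˢ S).image (fun (x : Option (Fin n) × Finset (Fin n)) =>
      x.1.elim x.2 (fun i => insert i x.2)), ?_, ?_⟩
    · refine Finset.card_image_le.trans ?_
      rw [Finset.card_product, Finset.card_univ, Fintype.card_option, Fintype.card_fin, pow_succ,
        mul_comm]
      exact Nat.mul_le_mul_right _ hS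
    · intro s hs
      rw [Finset.mem_image]
      by_cases h : s.card ≤ V
      · exact ⟨(none, s), by simp [hm s h], rfl⟩
      · have hs1 : s.Nonempty := by rw [← Finset.card_pos]; omega
        obtain ⟨i, hi⟩ := hs1
        refine ⟨(some i, s.erase i), ?_, ?_⟩
        · simp only [Finset.mem_product, Finset.mem_univ, true_and]
          apply hm
          rw [Finset.card_erase_of_mem hi]
          omega
        · simp [Finset.insert_erase hi]

theorem depth_bound (F : Finset (Cl n)) (M : ℕ → Finset (Cl n)) (t V : ℕ)
    (h0 : M 0 = ∅) (ht : ∅ ∈ M t)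
    (hstep : ∀ i < t, Step F (M i) (M (i + 1)))
    (hV : ∀ i ≤ t, (vars (M i)).card ≤ V) :
    Der F (((Nat.log 2 n + 1) * V + 1) * (((Nat.log 2 n + 1) * V + V + 2) * V) + V) ∅ := by
  classical
  have htpos : 0 < t := by
    rcases Nat.eq_zero_or_pos t with h | h
    · subst h; rw [h0] at ht; simp at ht
    · exact h
  obtain ⟨S, hS, hm⟩ := card_small_sets n V
  have hn : n + 1 ≤ 2 ^ (Nat.log 2 n + 1) := Nat.lt_pow_succ_log_self (by norm_num) n
  have hbags : (bags M 0 t).card < 2 ^ ((Nat.log 2 n + 1) * V + 1) := by
    have h1 : bags M 0 t ⊆ S := by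
      intro h hh
      unfold bags at hh
      obtain ⟨s, hs, rfl⟩ := Finset.mem_image.1 hh
      rw [Finset.mem_Ioo] at hs
      exact hm _ (hV s (by omega))
    have h2 := Finset.card_le_card h1
    have h3 : (n + 1) ^ V ≤ 2 ^ ((Nat.log 2 n + 1) * V) := by
      rw [pow_mul]
      exact Nat.pow_le_pow_left hn V
    have h4 : 2 ^ ((Nat.log 2 n + 1) * V) < 2 ^ ((Nat.log 2 n + 1) * V + 1) :=
      Nat.pow_lt_pow_right (by norm_num) (Nat.lt_succ_self _)
    omega
  have key : Der F (((Nat.log 2 n + 1) * V + 1) * (((Nat.log 2 n + 1) * V + V + 2) * V)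
      + (vars (M t)).card) (fcl ∅ (fun _ => false)) := by
    apply der_queries
    intro β _
    apply main_ind F M t V ((Nat.log 2 n + 1) * V + V + 2) hstep hV ((Nat.log 2 n + 1) * V + 1)
      (by omega) _ β 0 t htpos le_rfl
    · rw [h0]; simp [vars]
    · exact Finset.subset_union_right
    · rw [h0]; intro C hC; simp at hC
    · intro h
      obtain ⟨l, hl, _⟩ := h ∅ ht
      simp at hl
    · exact hbags
  have h2 : fcl (∅ : Finset (Fin n)) (fun _ => false) = ∅ := by simp [fcl]
  rw [h2] at key
  exact key.mono (by have := hV t le_rfl; omega)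

lemma unsat_of_ref (F : Finset (Cl n)) (M : ℕ → Finset (Cl n)) (t : ℕ)
    (h0 : M 0 = ∅) (ht : ∅ ∈ M t)
    (hstep : ∀ i < t, Step F (M i) (M (i + 1))) (α : Fin n → Bool) :
    ∃ C ∈ F, ¬ Sat α C := by
  classical
  have hex : ∃ s, ¬ Alive α (M s) ∧ s ≤ t := ⟨t, fun h => by
    obtain ⟨l, hl, _⟩ := h ∅ ht
    simp at hl, le_rfl⟩
  set s := Nat.find hex with hs
  have hsp := Nat.find_spec hex
  have hs0 : s ≠ 0 := by
    intro h
    rw [← hs, h, h0] at hsp
    exact hsp.1 (fun C hC => by simp at hC)
  obtain ⟨s', hs'⟩ := Nat.exists_eq_succ_of_ne_zero hs0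
  have hal : Alive α (M s') := by
    by_contra hcon
    have := Nat.find_min' hex (m := s') ⟨hcon, by rw [← hs, hs'] at hsp; omega⟩
    omega
  rw [← hs, hs'] at hsp
  obtain ⟨C, hC, _, hns⟩ := step_dead (hstep s' (by omega)) hal hsp.1
  exact ⟨C, hC, hns⟩

lemma depth_le_n (F : Finset (Cl n)) (M : ℕ → Finset (Cl n)) (t : ℕ)
    (h0 : M 0 = ∅) (ht : ∅ ∈ M t)
    (hstep : ∀ i < t, Step F (M i) (M (i + 1))) : Der F n ∅ := by
  classical
  have key : Der F (0 + (Finset.univ : Finset (Fin n)).card) (fcl ∅ (fun _ => false)) := by
    apply der_queries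
    intro β _
    obtain ⟨C, hC, hs⟩ := unsat_of_ref F M t h0 ht hstep β
    exact der_leaf hC hs (fun l _ => by simp)
  have h2 : fcl (∅ : Finset (Fin n)) (fun _ => false) = ∅ := by simp [fcl]
  rw [h2] at key
  simpa using key

end Pool.Agent.H561R2.VS
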